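import Pool.Agent.U742.HS.Pw

/-!
The part of a polynomial without multiple roots of high order.
-/

set_option autoImplicit false

open Polynomial

namespace Pool.Agent.U742.HS

section free

variable {k : Type} [Field k]

/-- the decomposition -/
theorem exists_free {m : ℕ} (hm : 1 ≤ m) : ∀ (d : ℕ) (H : k[X]), H ≠ 0 → H.natDegree ≤ d →
    ∃ S G : k[X], H = S ^ m * G ∧ ∀ r, G.rootMultiplicity r < m := by
  intro d
  induction d with
  | zero =>
    intro H hH hd
    refine ⟨1, H, by rw [one_pow, one_mul], fun r => ?_⟩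
    have h1 : H.rootMultiplicity r ≤ H.natDegree := by
      classical
      rw [← count_roots]
      exact (Multiset.count_le_card _ _).trans (card_roots' H)
    omega
  | succ d ih =>
    intro H hH hd
    by_cases hall : ∀ r, H.rootMultiplicity r < m
    · exact ⟨1, H, by rw [one_pow, one_mul], hall⟩
    · push Not at hall
      obtain ⟨r, hr⟩ := hall
      have hdv : (X - C r) ^ m ∣ H := (le_rootMultiplicity_iff hH).1 hr
      obtain ⟨H', rfl⟩ := hdv
      have hH' : H' ≠ 0 := right_ne_zero_of_mul hH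
      have hX : (X - C r) ^ m ≠ 0 := pow_ne_zero _ (X_sub_C_ne_zero r)
      rw [natDegree_mul hX hH', natDegree_pow, natDegree_X_sub_C] at hd
      obtain ⟨S, G, h1, h2⟩ := ih H' hH' (by omega)
      refine ⟨(X - C r) * S, G, ?_, h2⟩
      rw [h1, mul_pow, mul_assoc]

variable [IsAlgClosed k] {K : Type} [Field K] [Algebra k K]

/-- divisibility -/
theorem free_dvd {m : ℕ} (hm : 1 ≤ m) {G : k[X]} (hG : G ≠ 0) (hfree : ∀ r, G.rootMultiplicity r < m)
    {Q : K[X]} (hQ : Q ≠ 0) (h : (G.map (algebraMap k K)) ^ (m - 1) ∣ Q ^ m) :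
    G.map (algebraMap k K) ∣ Q := by
  classical
  have hsp : G.Splits := IsAlgClosed.splits G
  have hsp' : (G.map (algebraMap k K)).Splits := hsp.map _
  have hG' : G.map (algebraMap k K) ≠ 0 := Polynomial.map_ne_zero hG
  refine hsp'.dvd_of_roots_le_roots hG' ?_
  have h1 := roots.le_of_dvd (pow_ne_zero m hQ) h
  rw [roots_pow, roots_pow] at h1
  rw [Multiset.le_iff_count] at h1 ⊢
  intro s
  have h2 := h1 s
  rw [Multiset.count_nsmul, Multiset.count_nsmul] at h2
  by_cases hs : s ∈ (G.map (algebraMap k K)).roots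
  · rw [hsp.roots_map, Multiset.mem_map] at hs
    obtain ⟨r, -, rfl⟩ := hs
    have h3 : Multiset.count ((algebraMap k K) r) (G.map (algebraMap k K)).roots < m := by
      rw [count_roots, ← eq_rootMultiplicity_map (algebraMap k K).injective]
      exact hfree r
    set g := Multiset.count ((algebraMap k K) r) (G.map (algebraMap k K)).roots
    set v := Multiset.count ((algebraMap k K) r) Q.roots
    by_contra hcon
    obtain ⟨t, rfl⟩ : ∃ t, m = t + 1 := ⟨m - 1, by omega⟩
    have h4 : v + 1 ≤ g := by omega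
    simp only [Nat.add_sub_cancel] at h2
    nlinarith
  · rw [Multiset.count_eq_zero_of_notMem hs]
    exact Nat.zero_le _

/-- the structure -/
theorem free_str {m : ℕ} (hm : 1 ≤ m) {S G : k[X]} (hS : S ≠ 0) (hG : G ≠ 0)
    (hfree : ∀ r, G.rootMultiplicity r < m) {H Q : K[X]} {c : K} (hH : H ≠ 0) (hc : c ≠ 0)
    (h : H * ((S ^ m * G).map (algebraMap k K)) ^ (m - 1) = C c * Q ^ m) :
    ∃ p : K[X], p ≠ 0 ∧ H = C c * (p ^ m * G.map (algebraMap k K)) := by
  have hS' : S.map (algebraMap k K) ≠ 0 := Polynomial.map_ne_zero hS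
  have hG' : G.map (algebraMap k K) ≠ 0 := Polynomial.map_ne_zero hG
  set S' := S.map (algebraMap k K) with hSd
  set G' := G.map (algebraMap k K) with hGd
  have hC : (C c : K[X]) ≠ 0 := C_ne_zero.2 hc
  have h1 : H * G' ^ (m - 1) * (S' ^ (m - 1)) ^ m = C c * Q ^ m := by
    rw [← h, Polynomial.map_mul, Polynomial.map_pow, mul_pow, ← pow_mul, ← pow_mul,
      mul_comm (m - 1) m]
    ring
  have hu : IsUnit (C c : K[X]) := isUnit_C.2 (isUnit_iff_ne_zero.2 hc)
  have h2 : (S' ^ (m - 1)) ^ m ∣ Q ^ m := by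
    have h3 : (S' ^ (m - 1)) ^ m ∣ C c * Q ^ m := ⟨H * G' ^ (m - 1), by rw [← h1]; ring⟩
    exact (hu.dvd_mul_left).1 h3
  have h3 : S' ^ (m - 1) ∣ Q := (IsIntegrallyClosed.pow_dvd_pow_iff (by omega)).1 h2
  obtain ⟨Q1, rfl⟩ := h3
  have h4 : H * G' ^ (m - 1) = C c * Q1 ^ m := by
    have h5 : (S' ^ (m - 1)) ^ m ≠ 0 := pow_ne_zero _ (pow_ne_zero _ hS')
    apply mul_right_cancel₀ h5
    rw [h1]
    ring
  have hQ1 : Q1 ≠ 0 := by
    rintro rfl
    rw [zero_pow (by omega), mul_zero] at h4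
    exact mul_ne_zero hH (pow_ne_zero _ hG') h4
  have h5 : G' ^ (m - 1) ∣ Q1 ^ m := by
    have h6 : G' ^ (m - 1) ∣ C c * Q1 ^ m := ⟨H, by rw [← h4]; ring⟩
    exact (hu.dvd_mul_left).1 h6
  obtain ⟨p, rfl⟩ := free_dvd hm hG hfree hQ1 h5
  refine ⟨p, right_ne_zero_of_mul hQ1, ?_⟩
  apply mul_right_cancel₀ (pow_ne_zero (m - 1) hG')
  rw [h4, mul_pow, ← hGd]
  obtain ⟨t, rfl⟩ : ∃ t, m = t + 1 := ⟨m - 1, by omega⟩
  simp only [Nat.add_sub_cancel]
  ring

/-- `m`-th roots of constants are constant -/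
theorem root_const {m : ℕ} (hm : 1 ≤ m) {z : K} {c : k} (h : z ^ m = algebraMap k K c) :
    ∃ w : k, z = algebraMap k K w := by
  have hsp : (X ^ m - C c : k[X]).Splits := IsAlgClosed.splits _
  have h0 : (X ^ m - C c : k[X]) ≠ 0 := (monic_X_pow_sub_C c (by omega)).ne_zero
  have h1 : ((X ^ m - C c : k[X]).map (algebraMap k K)).IsRoot z := by
    simp [h]
  obtain ⟨w, hw⟩ := hsp.mem_range_of_isRoot h0 h1
  exact ⟨w, hw.symm⟩

end free

end Pool.Agent.U742.HS
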