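import Mathlib

/-!
Perfect powers of polynomials: a closed condition; the part of a polynomial without multiple roots
of high order.
-/

set_option autoImplicit false

open Polynomial

namespace Pool.Agent.U742.HS

section deriv

variable {F : Type} [Field F] [CharZero F]

theorem wr_degree {A B : F[X]} (hA : A ≠ 0) (hB : B ≠ 0)
    (h : derivative A * B = A * derivative B) : A.natDegree = B.natDegree := by
  have h1 := congrArg leadingCoeff h
  rw [leadingCoeff_mul, leadingCoeff_mul, leadingCoeff_derivative, leadingCoeff_derivative] at h1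
  have hA' := leadingCoeff_ne_zero.2 hA
  have hB' := leadingCoeff_ne_zero.2 hB
  have h2 : A.leadingCoeff * B.leadingCoeff * ((A.natDegree : F) - B.natDegree) = 0 := by
    linear_combination h1
  have h3 := (mul_eq_zero.1 h2).resolve_left (mul_ne_zero hA' hB')
  exact_mod_cast sub_eq_zero.1 h3

/-- vanishing Wronskian -/
theorem wr_zero {A B : F[X]} (hA : A ≠ 0) (hB : B ≠ 0)
    (h : derivative A * B = A * derivative B) : ∃ c : F, c ≠ 0 ∧ A = C c * B := by
  have hd := wr_degree hA hB h
  have hA' := leadingCoeff_ne_zero.2 hA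
  have hB' := leadingCoeff_ne_zero.2 hB
  refine ⟨A.leadingCoeff / B.leadingCoeff, div_ne_zero hA' hB', ?_⟩
  by_contra hne
  set c := A.leadingCoeff / B.leadingCoeff with hc
  have hne' : A - C c * B ≠ 0 := sub_ne_zero.2 hne
  have hc0 : c ≠ 0 := div_ne_zero hA' hB'
  have h1 : derivative (A - C c * B) * B = (A - C c * B) * derivative B := by
    rw [derivative_sub, derivative_mul, derivative_C]
    linear_combination h
  have h2 := wr_degree hne' hB h1
  have h3 : (A - C c * B).degree < A.degree := by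
    refine degree_sub_lt ?_ hA ?_
    · rw [degree_C_mul hc0, degree_eq_natDegree hA, degree_eq_natDegree hB, hd]
    · rw [leadingCoeff_mul, leadingCoeff_C, hc, div_mul_cancel₀ _ hB']
  have h4 := natDegree_lt_natDegree hne' h3
  omega

/-- the differential operator -/
noncomputable def op {R : Type} [CommRing R] (m : ℕ) (P Q : R[X]) : R[X] :=
  derivative P * Q - C (m : R) * (P * derivative Q)

theorem op_map {R S : Type} [CommRing R] [CommRing S] (φ : R →+* S) (m : ℕ) (P Q : R[X]) :
    (op m P Q).map φ = op m (P.map φ) (Q.map φ) := by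
  unfold op
  simp [Polynomial.map_sub, Polynomial.map_mul, Polynomial.derivative_map]

theorem op_pow {m : ℕ} (hm : 1 ≤ m) (Q : F[X]) : op m (Q ^ m) Q = 0 := by
  unfold op
  rw [derivative_pow]
  obtain ⟨k, rfl⟩ : ∃ k, m = k + 1 := ⟨m - 1, by omega⟩
  simp only [Nat.add_sub_cancel]
  ring

theorem pow_of_op {m : ℕ} (hm : 1 ≤ m) {P Q : F[X]} (hP : P ≠ 0) (hQ : Q ≠ 0)
    (h : op m P Q = 0) : ∃ c : F, c ≠ 0 ∧ P = C c * Q ^ m := by
  refine wr_zero hP (pow_ne_zero m hQ) ?_
  unfold op at h
  rw [derivative_pow]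
  obtain ⟨k, rfl⟩ : ∃ k, m = k + 1 := ⟨m - 1, by omega⟩
  simp only [Nat.add_sub_cancel]
  have h1 := sub_eq_zero.1 h
  calc derivative P * Q ^ (k + 1) = (derivative P * Q) * Q ^ k := by ring
    _ = P * (C ((k + 1 : ℕ) : F) * Q ^ k * derivative Q) := by rw [h1]; ring

theorem op_sum {R : Type} [CommRing R] (m n : ℕ) (P : R[X]) (v : Fin (n + 1) → R) :
    op m P (∑ l : Fin (n + 1), C (v l) * X ^ (l : ℕ)) =
      ∑ l : Fin (n + 1), C (v l) * op m P (X ^ (l : ℕ)) := by
  unfold op
  rw [derivative_sum, Finset.mul_sum, Finset.mul_sum, Finset.mul_sum, ← Finset.sum_sub_distrib]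
  refine Finset.sum_congr rfl fun l _ => ?_
  rw [derivative_C_mul]
  ring

/-- the matrix of the operator -/
noncomputable def Mt {R : Type} [CommRing R] (m D n : ℕ) (P : R[X]) :
    Matrix (Fin (D + 1)) (Fin (n + 1)) R :=
  Matrix.of fun r l => (op m P (X ^ (l : ℕ))).coeff r

theorem Mt_map {R S : Type} [CommRing R] [CommRing S] (φ : R →+* S) (m D n : ℕ) (P : R[X]) :
    (Mt m D n P).map φ = Mt m D n (P.map φ) := by
  ext r l
  simp only [Mt, Matrix.map_apply, Matrix.of_apply]
  rw [← coeff_map, op_map, Polynomial.map_pow, map_X]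

theorem Mt_mulVec {R : Type} [CommRing R] (m D n : ℕ) (P : R[X]) (v : Fin (n + 1) → R)
    (r : Fin (D + 1)) : (Mt m D n P).mulVec v r =
      (op m P (∑ l : Fin (n + 1), C (v l) * X ^ (l : ℕ))).coeff r := by
  rw [op_sum, finsetSum_coeff]
  simp only [Matrix.mulVec, dotProduct, Mt, Matrix.of_apply]
  refine Finset.sum_congr rfl fun l _ => ?_
  rw [coeff_C_mul, mul_comm]

theorem sum_fin {R : Type} [CommRing R] {n : ℕ} {Q : R[X]} (hQ : Q.natDegree ≤ n) :
    ∑ l : Fin (n + 1), C (Q.coeff l) * X ^ (l : ℕ) = Q := by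
  conv_rhs => rw [Q.as_sum_range_C_mul_X_pow' (Nat.lt_succ_of_le hQ)]
  rw [Fin.sum_univ_eq_sum_range (fun l => C (Q.coeff l) * X ^ l)]

theorem minor_of_op {m D n : ℕ} {P Q : F[X]} (hQ0 : Q ≠ 0) (hQ : Q.natDegree ≤ n)
    (h : op m P Q = 0) (e : Fin (n + 1) → Fin (D + 1)) :
    ((Mt m D n P).submatrix e id).det = 0 := by
  classical
  refine Matrix.exists_mulVec_eq_zero_iff.1 ⟨fun l => Q.coeff l, ?_, ?_⟩
  · intro h0
    apply hQ0
    ext l
    by_cases hl : l < n + 1
    · exact congrFun h0 ⟨l, hl⟩
    · exact coeff_eq_zero_of_natDegree_lt (by omega)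
  · funext r
    have h1 := Mt_mulVec m D n P (fun l => Q.coeff l) (e r)
    rw [sum_fin hQ, h, coeff_zero] at h1
    exact h1

/-- if all maximal minors vanish, then the columns are linearly dependent -/
theorem kernel_minors {R D : Type} [Fintype R] [Fintype D] [DecidableEq D]
    (M : Matrix R D F) (h : ∀ e : D → R, (M.submatrix e id).det = 0) :
    ∃ v : D → F, v ≠ 0 ∧ M.mulVec v = 0 := by
  classical
  by_contra hcon
  push Not at hcon
  -- the rows span
  have hspan : Submodule.span F (Set.range fun i => M i) = ⊤ := by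
    by_contra hne
    obtain ⟨φ, hφ0, hφ⟩ := Submodule.exists_le_ker_of_lt_top _ (lt_top_iff_ne_top.2 hne)
    let v : D → F := fun j => φ (Pi.single j 1)
    have hv : ∀ x : D → F, φ x = ∑ j, x j * v j := by
      intro x
      have h1 : x = ∑ j, x j • (Pi.single j (1 : F) : D → F) := by
        funext j
        simp [Finset.sum_apply, Pi.single_apply]
      conv_lhs => rw [h1]
      rw [map_sum]
      refine Finset.sum_congr rfl fun j _ => ?_
      rw [map_smul, smul_eq_mul]
    apply hcon v
    · intro h0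
      apply hφ0
      ext x
      simp only [LinearMap.coe_comp, LinearMap.coe_single, Function.comp_apply,
        LinearMap.zero_apply]
      exact congrFun h0 x
    · funext i
      have h1 : φ (M i) = 0 := hφ (Submodule.subset_span ⟨i, rfl⟩)
      rw [hv] at h1
      exact h1
  obtain ⟨b, hb, hbs, hbl⟩ := exists_linearIndependent F (Set.range fun i => M i)
  rw [hspan] at hbs
  have hbfin : b.Finite := (Set.finite_range _).subset hb
  have hbf : Fintype b := hbfin.fintype
  let B : Module.Basis b F (D → F) := Module.Basis.mk hbl (by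
    rw [Subtype.range_coe_subtype, Set.ofPred_mem_eq, hbs])
  have hcard : Fintype.card b = Fintype.card D := by
    rw [← Module.finrank_eq_card_basis B, Module.finrank_fintype_fun_eq_card]
  obtain ⟨eq⟩ : Nonempty (D ≃ b) := ⟨Fintype.equivOfCardEq hcard.symm⟩
  have hch : ∀ j : D, ∃ i, M i = (eq j : D → F) := fun j => hb (eq j).2
  choose e he using hch
  have h1 := h e
  obtain ⟨w, hw0, hw⟩ := Matrix.exists_vecMul_eq_zero_iff.2 h1
  apply hw0
  have h2 : LinearIndependent F fun j : D => ((eq j : b) : D → F) :=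
    hbl.comp eq eq.injective
  have h3 := Fintype.linearIndependent_iff.1 h2 w (by
    funext l
    have h4 := congrFun hw l
    simp only [Matrix.vecMul, dotProduct, Matrix.submatrix_apply, id, Pi.zero_apply] at h4
    simp only [Finset.sum_apply, Pi.smul_apply, smul_eq_mul, Pi.zero_apply]
    rw [← h4]
    refine Finset.sum_congr rfl fun j _ => ?_
    rw [he j])
  funext j
  exact h3 j

theorem op_natDegree {m D n : ℕ} {P Q : F[X]} (hQ : Q.natDegree ≤ n)
    (hP : P.natDegree + n ≤ D) : (op m P Q).natDegree ≤ D := by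
  unfold op
  refine (natDegree_sub_le _ _).trans (max_le ?_ ?_)
  · refine natDegree_mul_le.trans ?_
    have h1 := natDegree_derivative_le P
    omega
  · refine (natDegree_C_mul_le _ _).trans (natDegree_mul_le.trans ?_)
    have h1 := natDegree_derivative_le Q
    omega

theorem op_of_minor {m D n : ℕ} {P : F[X]} (hP : P.natDegree + n ≤ D)
    (h : ∀ e : Fin (n + 1) → Fin (D + 1), ((Mt m D n P).submatrix e id).det = 0) :
    ∃ Q : F[X], Q ≠ 0 ∧ Q.natDegree ≤ n ∧ op m P Q = 0 := by
  classical
  obtain ⟨v, hv0, hv⟩ := kernel_minors (Mt m D n P) h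
  have hdeg : (∑ l : Fin (n + 1), C (v l) * X ^ (l : ℕ)).natDegree ≤ n := by
    refine natDegree_sum_le_of_forall_le _ _ fun l _ => ?_
    refine (natDegree_C_mul_X_pow_le _ _).trans ?_
    omega
  refine ⟨∑ l : Fin (n + 1), C (v l) * X ^ (l : ℕ), ?_, hdeg, ?_⟩
  · intro h0
    apply hv0
    funext l
    have h1 := congrArg (fun p => coeff p (l : ℕ)) h0
    simp only [finsetSum_coeff, coeff_C_mul, coeff_X_pow, coeff_zero] at h1
    rw [Finset.sum_eq_single l] at h1
    · simpa using h1
    · intro l' _ hl'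
      rw [if_neg fun h => hl' (Fin.ext h.symm), mul_zero]
    · intro h2
      exact absurd (Finset.mem_univ _) h2
  · ext r
    by_cases hr : r < D + 1
    · have h1 := congrFun hv ⟨r, hr⟩
      rw [Mt_mulVec] at h1
      exact h1
    · rw [coeff_zero]
      refine coeff_eq_zero_of_natDegree_lt ?_
      have h1 := op_natDegree (m := m) hdeg hP
      omega

end deriv

end Pool.Agent.U742.HS
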